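import Pool.Agent.H121.GA.IfA
import Pool.Agent.H825.Y987.HullB
import Pool.Agent.H332.Y987.HullA
import Pool.Agent.H215.Y987.Eqv
import Pool.Agent.H800.Y987.Meas
import Pool.Agent.H588.Y987.Dig
import Pool.Agent.H796.Y987.Sep
import Pool.Agent.H168.Y987.Op
import Pool.Agent.H304.Z987.Green
import Pool.Agent.H788.Y987.Free

/-! Task GA-HULL (helper338): the limit of the bounds, potentials clipped at a level `b`
(port of `Pool/Agent/H825/Y987/HullB.lean`). -/

set_option autoImplicit false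
set_option linter.unusedSectionVars false

open scoped BigOperators InnerProductSpace Topology
open Filter MeasureTheory

namespace Pool.Agent.H338.GA

open Pool.Agent.H987.Y
open Pool.Agent.H121.GA
open Pool.Agent.Y662.TR (LL Cf Mw dv hu clp hu_nonneg clp_cont bdd_int_real)
open Pool.Agent.TH369.AN (Rz)
open Pool.Agent.H987.Z (Rs Gr Fr gZ HV S_green)
open Pool.Agent.H825.Y987 (map_inj hu_meas Bd bd_op ker_mono)

theorem dgb_shift {d : ℕ} (lv : ℝ) (V : Lt d → ℝ) (x a b : Lt d) :
    dgb lv V (a + x) (b + x) = dgb lv (fun y => V (y + x)) a b := by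
  unfold dgb
  by_cases h : a = b
  · rw [if_pos h, if_pos (by rw [h])]
  · rw [if_neg h, if_neg (fun h' => h (add_right_cancel h'))]

theorem dgb_meas {ι : Type} (lv : ℝ) (x y : ι) : Measurable fun V : ι → ℝ => dgb lv V x y := by
  unfold dgb
  by_cases h : x = y
  · simp only [if_pos h]
    exact (clp_cont lv).measurable.comp (measurable_pi_apply x)
  · simp only [if_neg h]
    exact measurable_const

theorem hullBb (hopb : S_opb) : Pool.Agent.H121.GA.S_hullBb := by
  have hop : S_op := Pool.Agent.H168.Y987.op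
  have hgr : S_green := Pool.Agent.H304.Z987.green
  have heqv : S_eqv := Pool.Agent.H215.Y987.eqv hop
  have hme : S_meas := Pool.Agent.H800.Y987.meas hop
  have hA : S_hullA := Pool.Agent.H332.Y987.hullA (Pool.Agent.H788.Y987.free hop)
  have hsep : S_sep := Pool.Agent.H796.Y987.sep
  have hdig : S_dig := Pool.Agent.H588.Y987.dig
  intro d Q A b R hQ hN hb ν _ lv hlv z g e hz hg hE x
  obtain ⟨-, A2, A3, A4, A5, -⟩ := hA d Q A b R hQ hN hb
  obtain ⟨D1, D2, D3⟩ := hdig d Q hQ
  have := D1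
  obtain ⟨μ, hμ⟩ : ∃ μ, μ = Measure.infinitePi fun _ : Lt d => ν := ⟨_, rfl⟩
  have hμp : IsProbabilityMeasure μ := by rw [hμ]; infer_instance
  have hb0 : ∀ k, 0 ≤ b k := fun k => (hN k).ker.h0
  obtain ⟨H, hH⟩ : ∃ H, H = 4 * (d : ℝ) + ∑' k, b k := ⟨_, rfl⟩
  have hH0 : 0 ≤ H := by
    rw [hH]
    have h1 : 0 ≤ ∑' k, b k := tsum_nonneg hb0
    positivity
  have hH1 : 0 ≤ H + lv := by linarith
  -- kernels
  have kn : ∀ n : ℕ, Ker H (tn A n) := fun n => by
    obtain ⟨R', hR'⟩ := A4 n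
    refine ker_mono hR'.ker ?_
    rw [hH]
    have := hb.sum_le_tsum (Finset.range n) (fun k _ => hb0 k)
    linarith
  have kns : ∀ (n : ℕ) (X : Lt d), Ker H (fun y y' => tn A n (y + X) (y' + X)) := fun n X =>
    (heqv (Lt d) (Lt d) (Equiv.addRight X) (tn A n) H (kn n)).1
  obtain ⟨K, hK⟩ : ∃ K : ℕ → Lt d × (Lt d → ℝ) → Lt d → Lt d → ℝ,
      K = fun n q y y' => tn A n (y + q.1) (y' + q.1) + dgb lv q.2 y y' := ⟨_, rfl⟩
  have hKk : ∀ n q, Ker (H + lv) (K n q) := fun n q => by
    rw [hK]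
    exact (hopb.1 _ _ H lv (kns n q.1) hlv q.2).1
  have hKm : ∀ n y y', Measurable fun q => K n q y y' := fun n y y' => by
    rw [hK]
    refine Measurable.add ?_ ((dgb_meas lv y y').comp measurable_snd)
    have h1 : Measurable fun X : Lt d => tn A n (y + X) (y' + X) := measurable_of_countable _
    exact h1.comp measurable_fst
  have hBK : ∀ n y, Bd (fun q => Gr (Op (K n q)) z y y) (1 / z.im) (z.im / (H + lv + ‖z‖) ^ 2) :=
    fun n y => bd_op hop hme hgr (K n) (H + lv) hH1 (hKk n) (hKm n) z hz y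
  obtain ⟨F, hF⟩ : ∃ F : ℕ → Lt d → ℝ,
      F = fun n X => ∫ V, hu (Gr (Op (K n (X, V))) z 0 0) g ^ 2 ∂μ := ⟨_, rfl⟩
  -- periodicity
  have hper : ∀ n (X v : Lt d), F n (X + (pQ Q n : ℤ) • v) = F n X := by
    intro n X v
    obtain ⟨R', hR'⟩ := A4 n
    have h1 : ∀ V, K n (X + (pQ Q n : ℤ) • v, V) = K n (X, V) := by
      intro V
      rw [hK]
      funext y y'
      simp only
      rw [← add_assoc, ← add_assoc, hR'.per]
    rw [hF]
    simp only [h1]
  -- the hypothesis
  have hhyp : ∀ n, ∫ ω, hu (Gr (Op (kNb (N := pQ Q n) lv (tn A n) ω)) z 0 0) g ^ 2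
      ∂(PO d (pQ Q n) ν) = ∫ h, F n (ph h) ∂(unif (Ph d (pQ Q n))) := by
    intro n
    have hN0 : 0 < pQ Q n := Finset.prod_pos fun k _ => hQ k
    have := (hsep d (pQ Q n) 0 ν hN0).1
    have h1 : ∀ ω : Om d (pQ Q n), kNb (N := pQ Q n) lv (tn A n) ω = K n (ph ω.1, ω.2) := by
      intro ω
      rw [hK]
      rfl
    have hm1 : Measurable fun ω : Om d (pQ Q n) => ((ph ω.1, ω.2) : Lt d × (Lt d → ℝ)) := by
      refine Measurable.prodMk ?_ measurable_snd
      have : Measurable fun h : Ph d (pQ Q n) => ph h := measurable_of_countable _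
      exact this.comp measurable_fst
    have hI := ((hBK n 0).comp hm1).int2 hg ((unif (Ph d (pQ Q n))).prod μ)
    simp only [h1]
    unfold PO
    rw [← hμ, integral_prod _ hI, hF]
  -- the translation
  have htr : ∀ n (X : Lt d), ∫ V, hu (Gr (Op (K n (X, V))) z x x) g ^ 2 ∂μ = F n (X + x) := by
    intro n X
    have h1 : ∀ V : Lt d → ℝ, Gr (Op (K n (X, V))) z x x =
        Gr (Op (K n (X + x, fun y => V (y + x)))) z 0 0 := by
      intro V
      have h2 := (heqv (Lt d) (Lt d) (Equiv.addRight x) (K n (X, V)) (H + lv) (hKk n _)).2 z 0 0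
        hz.ne'
      have h3 : (fun a b => K n (X, V) ((Equiv.addRight x) a) ((Equiv.addRight x) b)) =
          K n (X + x, fun y => V (y + x)) := by
        funext a b
        rw [hK]
        simp only [Equiv.coe_addRight]
        rw [dgb_shift, add_assoc, add_assoc, add_comm x X]
      rw [h3] at h2
      simp only [Equiv.coe_addRight, zero_add] at h2
      exact h2.symm
    simp only [h1]
    have hs : Measurable fun V : Lt d → ℝ => fun y => V (y + x) :=
      measurable_pi_lambda _ fun a => measurable_pi_apply _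
    have hmap : μ.map (fun V : Lt d → ℝ => fun y => V (y + x)) = μ := by
      rw [hμ]
      exact map_inj (fun y : Lt d => y + x) (fun a b h => add_right_cancel h) ν
    have hm2 : Measurable fun V : Lt d → ℝ => ((X + x, V) : Lt d × (Lt d → ℝ)) :=
      Measurable.prodMk measurable_const measurable_id
    have h5 : F n (X + x) = ∫ V, hu (Gr (Op (K n (X + x, V))) z 0 0) g ^ 2
        ∂(μ.map (fun V : Lt d → ℝ => fun y => V (y + x))) := by
      rw [hmap, hF]
    rw [h5, integral_map hs.aemeasurable]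
    exact ((hu_meas ((hBK n 0).comp hm2).me g).pow_const 2).aestronglyMeasurable
  -- the approximations
  have hmq : ∀ n, Measurable fun q : Hu d Q × (Lt d → ℝ) =>
      ((hd n q.1, q.2) : Lt d × (Lt d → ℝ)) := fun n =>
    Measurable.prodMk ((D2 n).comp measurable_fst) measurable_snd
  have hBq : ∀ n, Bd (fun q : Hu d Q × (Lt d → ℝ) => Gr (Op (K n (hd n q.1, q.2))) z x x)
      (1 / z.im) (z.im / (H + lv + ‖z‖) ^ 2) := fun n => (hBK n x).comp (hmq n)
  have hJ : ∀ n, ∫ q : Hu d Q × (Lt d → ℝ), hu (Gr (Op (K n (hd n q.1, q.2))) z x x) g ^ 2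
      ∂((PH d Q).prod μ) = ∫ ω, hu (Gr (Op (kNb (N := pQ Q n) lv (tn A n) ω)) z 0 0) g ^ 2
      ∂(PO d (pQ Q n) ν) := by
    intro n
    rw [integral_prod _ ((hBq n).int2 hg _)]
    simp only [htr]
    rw [D3 n (F n) (hper n) x, hhyp]
  -- the limit
  obtain ⟨L, hL⟩ : ∃ L : Hu d Q × (Lt d → ℝ) → Lt d → Lt d → ℝ,
      L = fun q y y' => kf d y y' + tA A q.1 y y' + dgb lv q.2 y y' := ⟨_, rfl⟩
  have hLk : ∀ q, Ker (H + lv) (L q) := fun q => by
    rw [hL]
    have h1 := A2 q.1
    rw [← hH] at h1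
    exact (hopb.1 _ _ H lv h1 hlv q.2).1
  have hLm : ∀ y y', Measurable fun q => L q y y' := fun y y' => by
    rw [hL]
    refine Measurable.add (Measurable.add measurable_const ?_) ((dgb_meas lv y y').comp measurable_snd)
    exact (A3 y y').comp measurable_fst
  have hBL : Bd (fun q => Gr (Op (L q)) z x x) (1 / z.im) (z.im / (H + lv + ‖z‖) ^ 2) :=
    bd_op hop hme hgr L (H + lv) hH1 hLk hLm z hz x
  have htail : Tendsto (fun n => (∑' k, b (n + k)) / z.im ^ 2) atTop (𝓝 0) := by
    have h1 := tendsto_sum_nat_add b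
    have h2 : (fun n => ∑' k, b (n + k)) = fun i => ∑' k, b (k + i) := by
      funext n
      exact tsum_congr fun k => by rw [add_comm]
    rw [← h2] at h1
    simpa using h1.div_const (z.im ^ 2)
  have hclose : ∀ n q, ‖Gr (Op (K n (hd n q.1, q.2))) z x x - Gr (Op (L q)) z x x‖ ≤
      (∑' k, b (n + k)) / z.im ^ 2 := by
    intro n q
    have r1 := (hop _ _ (H + lv) (hLk q)).2.2.1
    have r2 := (hop _ _ (H + lv) (hKk n (hd n q.1, q.2))).2.2.1
    have h3 : Ker (∑' k, b (n + k)) fun y y' => L q y y' - K n (hd n q.1, q.2) y y' := by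
      have h4 := A5 q.1 n
      have h5 : (fun y y' => L q y y' - K n (hd n q.1, q.2) y y') = fun y y' =>
          kf d y y' + tA A q.1 y y' - tn A n (y + hd n q.1) (y' + hd n q.1) := by
        funext y y'
        rw [hL, hK]
        simp only
        ring
      rw [h5]
      exact h4
    have h6 := (hop _ _ (H + lv) (hLk q)).2.2.2.2 _ (H + lv) _ (hKk n (hd n q.1, q.2)) h3
    have h7 := (hgr _ (Op (L q)) r1).2.2.2.2.2.1 (Op (K n (hd n q.1, q.2))) z x x r2 hz
    rw [norm_sub_rev]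
    refine h7.trans ?_
    gcongr
  have hlim : ∀ q, Tendsto (fun n => hu (Gr (Op (K n (hd n q.1, q.2))) z x x) g ^ 2) atTop
      (𝓝 (hu (Gr (Op (L q)) z x x) g ^ 2)) := by
    intro q
    have h1 : Tendsto (fun n => Gr (Op (K n (hd n q.1, q.2))) z x x) atTop
        (𝓝 (Gr (Op (L q)) z x x)) := by
      rw [tendsto_iff_norm_sub_tendsto_zero]
      exact squeeze_zero (fun _ => norm_nonneg _) (fun n => hclose n q) htail
    refine Tendsto.pow ?_ 2
    unfold hu
    refine Tendsto.div ((h1.sub_const g).norm.pow 2)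
      (((Complex.continuous_im.tendsto _).comp h1).mul_const g.im) ?_
    exact (mul_pos (hBL.κ0.trans_le (hBL.κ q)) hg).ne'
  have hfin : Tendsto (fun n => ∫ q : Hu d Q × (Lt d → ℝ),
      hu (Gr (Op (K n (hd n q.1, q.2))) z x x) g ^ 2 ∂((PH d Q).prod μ)) atTop
      (𝓝 (∫ q, hu (Gr (Op (L q)) z x x) g ^ 2 ∂((PH d Q).prod μ))) := by
    refine tendsto_integral_of_dominated_convergence
      (fun _ => ((1 / z.im + ‖g‖) ^ 2 / (z.im / (H + lv + ‖z‖) ^ 2 * g.im)) ^ 2) (fun n => ?_)
      (integrable_const _) (fun n => ?_) (ae_of_all _ hlim)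
    · exact ((hu_meas (hBq n).me g).pow_const 2).aestronglyMeasurable
    · exact ae_of_all _ fun q => (hBq n).sq_le hg q
  have hres : ∫ q, hu (Gr (Op (L q)) z x x) g ^ 2 ∂((PH d Q).prod μ) ≤ e := by
    refine le_of_tendsto hfin ?_
    filter_upwards [hE] with n hn
    rw [hJ n]
    exact hn
  rw [hμ, hL] at hres
  exact hres

end Pool.Agent.H338.GA
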